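import Pool.Agent.Helper81.AD2.Goals

/-!
# Project AD2 (MP_ccb3f4_gt): packet NUM
-/

set_option autoImplicit false

namespace Pool.Agent.Helper15.AD2.NUM

open Pool.Agent.Helper81.AD2

theorem t : S_NUM := by
  intro d
  have hs : (0 : ℝ) ≤ Real.sqrt d := Real.sqrt_nonneg _
  have h1 : ∀ k ∈ Finset.range (d + 1),
      (((d.choose k) ^ 2 * k.factorial : ℕ) : ℝ) ≤
        d.factorial * ((Real.sqrt d) ^ (d - k) / (d - k).factorial) ^ 2 := by
    intro k hk
    have hkd : k ≤ d := Nat.lt_succ_iff.1 (Finset.mem_range.1 hk)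
    have e1 : d.choose k * k.factorial * (d - k).factorial = d.factorial :=
      Nat.choose_mul_factorial_mul_factorial hkd
    have e1' : (d.choose k : ℝ) * k.factorial * (d - k).factorial = d.factorial := by
      exact_mod_cast e1
    have e2 : (d.choose k : ℝ) ≤ (d : ℝ) ^ (d - k) / (d - k).factorial := by
      have h := Nat.choose_le_pow_div (α := ℝ) (d - k) d
      rwa [Nat.choose_symm hkd] at h
    have e3 : (0 : ℝ) < ((d - k).factorial : ℝ) := by exact_mod_cast Nat.factorial_pos _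
    have e4 : ((Real.sqrt d) ^ (d - k)) ^ 2 = (d : ℝ) ^ (d - k) := by
      rw [← pow_mul, mul_comm, pow_mul, Real.sq_sqrt (Nat.cast_nonneg d)]
    rw [div_pow, e4, ← e1']
    push_cast
    have e5 : (0 : ℝ) ≤ (d.choose k : ℝ) * k.factorial := by positivity
    have e6 : (d.choose k : ℝ) * k.factorial * (d - k).factorial *
        ((d : ℝ) ^ (d - k) / ((d - k).factorial : ℝ) ^ 2) =
        (d.choose k : ℝ) * k.factorial * ((d : ℝ) ^ (d - k) / (d - k).factorial) := by
      field_simp
    rw [e6]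
    calc (d.choose k : ℝ) ^ 2 * k.factorial = (d.choose k : ℝ) * k.factorial * d.choose k := by ring
      _ ≤ _ := mul_le_mul_of_nonneg_left e2 e5
  have h2 : ((bd d : ℕ) : ℝ) ≤ d.factorial *
      ∑ j ∈ Finset.range (d + 1), ((Real.sqrt d) ^ j / j.factorial) ^ 2 := by
    rw [← Finset.sum_range_reflect, Finset.mul_sum]
    unfold bd
    rw [Nat.cast_sum]
    refine Finset.sum_le_sum fun k hk => ?_
    have := h1 k hk
    simpa using this
  have h3 : ∑ j ∈ Finset.range (d + 1), ((Real.sqrt d) ^ j / j.factorial) ^ 2 ≤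
      (∑ j ∈ Finset.range (d + 1), (Real.sqrt d) ^ j / j.factorial) ^ 2 := by
    rw [sq (∑ j ∈ Finset.range (d + 1), (Real.sqrt d) ^ j / j.factorial), Finset.sum_mul]
    refine Finset.sum_le_sum fun j hj => ?_
    rw [sq]
    refine mul_le_mul_of_nonneg_left ?_ (by positivity)
    exact Finset.single_le_sum (f := fun i => (Real.sqrt d) ^ i / (i.factorial : ℝ))
      (fun i _ => by positivity) hj
  have h4 : ∑ j ∈ Finset.range (d + 1), (Real.sqrt d) ^ j / j.factorial ≤ Real.exp (Real.sqrt d) :=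
    Real.sum_le_exp_of_nonneg hs _
  have h5 : (0 : ℝ) ≤ ∑ j ∈ Finset.range (d + 1), (Real.sqrt d) ^ j / j.factorial :=
    Finset.sum_nonneg fun j _ => by positivity
  have h6 : (∑ j ∈ Finset.range (d + 1), (Real.sqrt d) ^ j / j.factorial) ^ 2 ≤
      Real.exp (2 * Real.sqrt d) := by
    rw [show (2 : ℝ) * Real.sqrt d = Real.sqrt d + Real.sqrt d by ring, Real.exp_add, ← sq]
    exact pow_le_pow_left₀ h5 h4 2
  calc ((bd d : ℕ) : ℝ) ≤ _ := h2
    _ ≤ d.factorial * Real.exp (2 * Real.sqrt d) :=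
      mul_le_mul_of_nonneg_left (h3.trans h6) (Nat.cast_nonneg _)

end Pool.Agent.Helper15.AD2.NUM
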